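import Pool.Agent.Y185.LR.QEL

/-!
# Project LR: the cross-ratio inequality for rectangles
-/

set_option autoImplicit false

namespace Pool.Agent.Y185.LR.CR

open H974 Finset Pool.Agent.Y197.LR Pool.Agent.Y185.LR.QEL

theorem mem_SE_true {n c c' x y : ℤ} :
    ((x, y, true) : Edg) ∈ SE n c c' ↔ c ≤ x ∧ x < c' ∧ 0 ≤ y ∧ y ≤ n := by
  unfold SE
  rw [mem_filter, mem_RE_true]
  constructor
  · rintro ⟨h, -⟩
    exact h
  · intro h
    exact ⟨h, h.2.1⟩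

theorem mem_SE_false {n c c' x y : ℤ} :
    ((x, y, false) : Edg) ∈ SE n c c' ↔ c ≤ x ∧ x < c' ∧ 0 ≤ y ∧ y < n := by
  unfold SE
  rw [mem_filter, mem_RE_false]
  constructor
  · rintro ⟨h, h1⟩
    exact ⟨h.1, h1, h.2.2⟩
  · intro h
    exact ⟨⟨h.1, h.2.1.le, h.2.2⟩, h.2.1⟩

theorem inS_true {n x y : ℤ} : InS n (x, y, true) ↔ 0 ≤ y ∧ y ≤ n := by
  unfold InS
  rw [tgt_true]

theorem inS_false {n x y : ℤ} : InS n (x, y, false) ↔ 0 ≤ y ∧ y + 1 ≤ n := by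
  unfold InS
  rw [tgt_false]

/-- the target -/
def tl (x : ℤ) (T : Finset ℤ) : Set Vtx := {v | v.1 = x ∧ v.2 ∈ T}

theorem ls {n a : ℤ} (hna : n ≤ a) {T : Finset ℤ} (hT : T ⊆ Icc 0 n) :
    LS n 0 (SE n (-a) 0) (tl (-a) T) where
  lt := by
    rintro ⟨x, y, _ | _⟩ h
    · rw [mem_SE_false] at h
      rw [inS_false]
      exact ⟨h.2.1, by omega⟩
    · rw [mem_SE_true] at h
      rw [inS_true]
      exact ⟨h.2.1, by omega⟩
  sub := by
    rintro ⟨x, y, _ | _⟩ h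
    · rw [mem_SE_false] at h ⊢
      omega
    · rw [mem_SE_true] at h ⊢
      omega
  tgt := by
    rintro ⟨x, y⟩ ⟨h1, h2⟩
    have h3 := mem_Icc.1 (hT h2)
    simp only at h1 h3 ⊢
    omega

theorem bb_pos {n a : ℤ} (ha : 0 ≤ a) {T : Finset ℤ} (hT : T ⊆ Icc 0 n) (hne : T.Nonempty) :
    0 < bb n (SE n (-a) 0) (tl (-a) T) := by
  obtain ⟨t, ht⟩ := hne
  have ht' := mem_Icc.1 (hT ht)
  refine pr_pos ⟨(0, t), ⟨rfl, ht'⟩, (-a, t), ⟨rfl, ht⟩, ?_⟩
  refine (reach_h' (by omega) fun z h1 h2 => ?_).symm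
  rw [mem_coe, mem_SE_true]
  omega

/-- the representation of `Q` -/
theorem q_rep {n a b c : ℤ} (hc : 0 ≤ c) (ha : 0 ≤ a) (hb : 0 ≤ b) (T S : Finset ℤ) :
    Q n (a + c + b) T S = Ex hf (RE c (c + b) 0 n)
      (fun F => U (SE n (-a) 0 ∪ SE n 0 c) (tl (-a) T) (tl (c + b) S) F) := by
  have h1 : RE (-a) (c + b) 0 n = (trl (-a) 0).mp (RE 0 (a + c + b) 0 n) := by
    rw [trl_RE]
    congr 1 <;> ring
  have h2 : Pr hf (RE (-a) (c + b) 0 n)
      (fun G => Cn (tl (c + b) S) (tl (-a) T) G) = Q n (a + c + b) T S := by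
    rw [h1]
    refine (LSym.pr (trl (-a) 0) (1 / 2) (RE 0 (a + c + b) 0 n) _).trans (Pr_congr fun F _ => ?_)
    have h3 : ∀ t s : ℤ, Reach (↑((trl (-a) 0).mp F) : Set Edg) (c + b, s) (-a, t) ↔
        Reach (↑F : Set Edg) (0, t) (a + c + b, s) := by
      intro t s
      have h4 := LSym.reach_iff (trl (-a) 0) (F := (↑F : Set Edg)) (u := (a + c + b, s))
        (v := (0, t))
      rw [trl_ψ, trl_ψ, add_zero, add_zero, zero_add, ← LSym.coe_mp,
        show a + c + b + -a = c + b by ring] at h4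
      rw [h4]
      exact ⟨Reach.symm, Reach.symm⟩
    constructor
    · rintro ⟨⟨x, s⟩, ⟨hx, hs⟩, ⟨x', t⟩, ⟨hx', ht⟩, h⟩
      simp only at hx hs hx' ht
      subst hx
      subst hx'
      exact ⟨t, ht, s, hs, (h3 t s).1 h⟩
    · rintro ⟨t, ht, s, hs, h⟩
      exact ⟨(c + b, s), ⟨rfl, hs⟩, (-a, t), ⟨rfl, ht⟩, (h3 t s).2 h⟩
  have hun : RE (-a) (c + b) 0 n = RE c (c + b) 0 n ∪ (SE n (-a) 0 ∪ SE n 0 c) := by
    ext ⟨x, y, _ | _⟩
    · simp only [mem_union, mem_SE_false, mem_RE_false]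
      omega
    · simp only [mem_union, mem_SE_true, mem_RE_true]
      omega
  have hdis : Disjoint (RE c (c + b) 0 n) (SE n (-a) 0 ∪ SE n 0 c) := by
    rw [Finset.disjoint_left]
    rintro ⟨x, y, _ | _⟩ h3 h4
    · simp only [mem_union, mem_SE_false, mem_RE_false] at h3 h4
      omega
    · simp only [mem_union, mem_SE_true, mem_RE_true] at h3 h4
      omega
  rw [← h2, hun]
  unfold Pr
  rw [Ex_union hdis]
  rfl

theorem q_le {n a a' b c : ℤ} (hc : 0 ≤ c) (ha : 0 ≤ a) (ha' : 0 ≤ a') (hb : 0 ≤ b)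
    {T T' S : Finset ℤ} (hS : S ⊆ Icc 0 n) {p q : ℝ}
    (h : ∀ (S : Set Vtx) (F : Finset Edg), RtV n c S → Rt n c F →
      p * U (SE n (-a) 0 ∪ SE n 0 c) (tl (-a) T) S F ≤
        q * U (SE n (-a') 0 ∪ SE n 0 c) (tl (-a') T') S F) :
    p * Q n (a + c + b) T S ≤ q * Q n (a' + c + b) T' S := by
  rw [q_rep hc ha hb, q_rep hc ha' hb, ← Ex_mul_left, ← Ex_mul_left]
  refine Ex_mono okhf fun F hF => h _ F ?_ ?_
  · rintro ⟨x, y⟩ ⟨h1, h2⟩
    have h3 := mem_Icc.1 (hS h2)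
    simp only at h1 h3 ⊢
    omega
  · rintro ⟨x, y, _ | _⟩ he
    · have h1 := hF he
      rw [mem_RE_false] at h1
      rw [inS_false]
      exact ⟨h1.1, by omega⟩
    · have h1 := hF he
      rw [mem_RE_true] at h1
      rw [inS_true]
      exact ⟨h1.1, by omega⟩

theorem q_nonneg (n w : ℤ) (T S : Finset ℤ) : 0 ≤ Q n w T S := Pr_nonneg okhf _ _

theorem main (h : S_ITER) : S_CR := by
  obtain ⟨d, hd0, hd1, H⟩ := h
  refine ⟨d, hd0, hd1, ?_⟩
  intro n a a' b b' k T T' S S' hn ha ha' hb hb' hT hT' hS hS' hTn hTn'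
  have ha0 : 0 ≤ a := by omega
  have ha0' : 0 ≤ a' := by omega
  obtain ⟨m, M, hm0, hmM, hM, hmain⟩ := H n (SE n (-a) 0) (SE n (-a') 0) (tl (-a) T)
    (tl (-a') T') hn (ls ha hT) (ls ha' hT') (bb_pos ha0 hT hTn) (bb_pos ha0' hT' hTn') k
  have hc : 0 ≤ ((k : ℤ) + 1) * N n := by
    unfold N
    have : (0 : ℤ) ≤ k := Int.natCast_nonneg k
    have h1 : (0 : ℤ) ≤ 2 * n + 2 := by omega
    positivity
  set c : ℤ := ((k : ℤ) + 1) * N n with hcd
  have e1 : m * Q n (a + c + b) T S ≤ 1 * Q n (a' + c + b) T' S :=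
    q_le hc ha0 ha0' hb hS fun S F hS hF => by
      rw [one_mul]
      exact (hmain S F hS hF).1
  have e2 : 1 * Q n (a' + c + b') T' S' ≤ M * Q n (a + c + b') T S' :=
    q_le hc ha0' ha0 hb' hS' fun S F hS hF => by
      rw [one_mul]
      exact (hmain S F hS hF).2
  rw [one_mul] at e1 e2
  have q1 := q_nonneg n (a + c + b) T S
  have q3 := q_nonneg n (a + c + b') T S'
  have q2 := q_nonneg n (a' + c + b) T' S
  have hK : 0 ≤ 1 + (1 - d) ^ k / d := by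
    have h1 : 0 ≤ 1 - d := by linarith
    positivity
  calc Q n (a + c + b) T S * Q n (a' + c + b') T' S'
      ≤ Q n (a + c + b) T S * (M * Q n (a + c + b') T S') := mul_le_mul_of_nonneg_left e2 q1
    _ ≤ Q n (a + c + b) T S * (((1 + (1 - d) ^ k / d) * m) * Q n (a + c + b') T S') :=
        mul_le_mul_of_nonneg_left (mul_le_mul_of_nonneg_right hM q3) q1
    _ = (1 + (1 - d) ^ k / d) * (m * Q n (a + c + b) T S * Q n (a + c + b') T S') := by ring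
    _ ≤ (1 + (1 - d) ^ k / d) * (Q n (a' + c + b) T' S * Q n (a + c + b') T S') :=
        mul_le_mul_of_nonneg_left (mul_le_mul_of_nonneg_right e1 q3) hK

end Pool.Agent.Y185.LR.CR
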