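import Pool.Agent.Y197.LR.Stm

/-!
# Project LR: elementary properties of `Q`
-/

set_option autoImplicit false

namespace Pool.Agent.Y185.LR.QEL

open H974 Finset Pool.Agent.Y197.LR

theorem okhf : Ok hf := by
  intro e
  change (0 : ℝ) ≤ 1 / 2 ∧ (1 : ℝ) / 2 ≤ 1
  constructor <;> norm_num

/-- an event which holds for the full configuration has positive probability -/
theorem pr_pos {S : Finset Edg} {A : Finset Edg → Prop} (h : A S) : 0 < Pr hf S A := by
  unfold Pr Ex
  refine Finset.sum_pos' (fun F _ => ?_) ⟨S, Finset.mem_powerset_self S, ?_⟩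
  · refine mul_nonneg (mul_nonneg (prod_nonneg fun e _ => ?_) (prod_nonneg fun e _ => ?_))
      (ind_nonneg _)
    · exact (okhf e).1
    · have := (okhf e).2
      linarith
  · change 0 < ((∏ e ∈ S, hf e) * ∏ e ∈ S \ S, (1 - hf e)) * ind (A S)
    rw [ind_of h, mul_one]
    refine mul_pos (prod_pos fun e _ => ?_) (prod_pos fun e _ => ?_)
    · change (0 : ℝ) < 1 / 2
      norm_num
    · change (0 : ℝ) < 1 - 1 / 2
      norm_num

theorem reach_h {G : Set Edg} {x y : ℤ} (m : ℕ)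
    (h : ∀ z : ℤ, x ≤ z → z < x + m → ((z, y, true) : Edg) ∈ G) :
    Reach G (x, y) (x + m, y) := by
  induction m with
  | zero =>
    rw [Nat.cast_zero, add_zero]
    exact Reach.refl _ _
  | succ m ih =>
    refine (ih fun z h1 h2 => h z h1 (by push_cast; omega)).trans ?_
    refine Adj.reach ⟨(x + m, y, true), h _ (by omega) (by push_cast; omega), Or.inl ⟨rfl, ?_⟩⟩
    rw [tgt_true]
    push_cast
    rw [add_assoc]

theorem reach_v {G : Set Edg} {x y : ℤ} (m : ℕ)
    (h : ∀ z : ℤ, y ≤ z → z < y + m → ((x, z, false) : Edg) ∈ G) :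
    Reach G (x, y) (x, y + m) := by
  induction m with
  | zero =>
    rw [Nat.cast_zero, add_zero]
    exact Reach.refl _ _
  | succ m ih =>
    refine (ih fun z h1 h2 => h z h1 (by push_cast; omega)).trans ?_
    refine Adj.reach ⟨(x, y + m, false), h _ (by omega) (by push_cast; omega), Or.inl ⟨rfl, ?_⟩⟩
    rw [tgt_false]
    push_cast
    rw [add_assoc]

theorem reach_h' {G : Set Edg} {x x' y : ℤ} (hx : x ≤ x')
    (h : ∀ z : ℤ, x ≤ z → z < x' → ((z, y, true) : Edg) ∈ G) :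
    Reach G (x, y) (x', y) := by
  obtain ⟨m, hm⟩ := Int.eq_ofNat_of_zero_le (sub_nonneg.mpr hx)
  have e : x' = x + m := by omega
  subst e
  exact reach_h m h

theorem reach_v' {G : Set Edg} {x y y' : ℤ} (hy : y ≤ y')
    (h : ∀ z : ℤ, y ≤ z → z < y' → ((x, z, false) : Edg) ∈ G) :
    Reach G (x, y) (x, y') := by
  obtain ⟨m, hm⟩ := Int.eq_ofNat_of_zero_le (sub_nonneg.mpr hy)
  have e : y' = y + m := by omega
  subst e
  exact reach_v m h

theorem reach_full {a b c d t s : ℤ} (hab : a ≤ b) (ht : c ≤ t ∧ t ≤ d) (hs : c ≤ s ∧ s ≤ d) :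
    Reach (↑(RE a b c d) : Set Edg) (a, t) (b, s) := by
  have h1 : Reach (↑(RE a b c d) : Set Edg) (a, t) (b, t) := by
    refine reach_h' hab fun z h1 h2 => ?_
    rw [mem_coe, mem_RE_true]
    omega
  refine h1.trans ?_
  rcases le_total t s with h | h
  · refine reach_v' h fun z h1 h2 => ?_
    rw [mem_coe, mem_RE_false]
    omega
  · refine (reach_v' h fun z h1 h2 => ?_).symm
    rw [mem_coe, mem_RE_false]
    omega

theorem main : S_QEL := by
  intro n w T S hn hw hT hS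
  refine ⟨?_, ?_, ?_, ?_⟩
  · rintro ⟨t, ht⟩ ⟨s, hs⟩
    refine pr_pos ⟨t, ht, s, hs, ?_⟩
    have ht' := mem_Icc.1 (hT ht)
    have hs' := mem_Icc.1 (hS hs)
    exact reach_full (by omega) ht' hs'
  · have h1 : RE 0 w 0 n = (rfx w).mp (RE 0 w 0 n) := by
      rw [rfx_RE]
      congr 1 <;> ring
    unfold Q
    conv_lhs => rw [h1]
    have h2 := LSym.pr (rfx w) (1 / 2) (RE 0 w 0 n)
      (fun G => ∃ t ∈ T, ∃ s ∈ S, Reach (↑G : Set Edg) (0, t) (w, s))
    refine h2.trans (Pr_congr fun F _ => ?_)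
    have h3 : ∀ t s : ℤ, Reach (↑((rfx w).mp F) : Set Edg) (0, t) (w, s) ↔
        Reach (↑F : Set Edg) (0, s) (w, t) := by
      intro t s
      have h4 := LSym.reach_iff (rfx w) (F := (↑F : Set Edg)) (u := (w, t)) (v := (0, s))
      rw [rfx_ψ, rfx_ψ, sub_self, sub_zero, ← LSym.coe_mp] at h4
      rw [h4]
      exact ⟨Reach.symm, Reach.symm⟩
    constructor
    · rintro ⟨t, ht, s, hs, h⟩
      exact ⟨s, hs, t, ht, (h3 t s).1 h⟩
    · rintro ⟨s, hs, t, ht, h⟩
      exact ⟨t, ht, s, hs, (h3 t s).2 h⟩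
  · refine Pr_mono okhf fun F _ => ?_
    rintro ⟨t, ht, s, hs, h⟩
    exact ⟨t, hT ht, s, hs, h⟩
  · have h1 : Q n w (Icc 0 n) (Icc 0 n) = Pr (fun _ => 1 / 2) (RE 0 w 0 n) (LRc 0 w 0 n) := by
      refine Pr_congr fun F hF => ?_
      constructor
      · rintro ⟨t, ht, s, hs, h⟩
        have h2 : (↑F : Set Edg) ∩ ↑(RE 0 w 0 n) = ↑F :=
          Set.inter_eq_left.2 (by exact_mod_cast hF)
        rw [← h2] at h
        exact LRc_of_reach (by omega) h rfl rfl
      · rintro ⟨y, y', h2, h3, h4⟩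
        exact ⟨y, mem_Icc.2 h2, y', mem_Icc.2 h3, h4.mono Set.inter_subset_left⟩
    rw [h1, pr_LRc _ LRE_subset_RE, sub_zero, sub_zero]

end Pool.Agent.Y185.LR.QEL
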